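import Pool.Agent.R745.CB.Stms

/-! CB-B: the complement of two stacked product blocks is connected (MP_8f6e3d_gt). -/

namespace Pool.Agent.R62.CB

open Set Topology Metric Pool.Agent.R745.CB

theorem stmCompl : StmCompl := by
  intro E _ _ X B a b c hXB hv ha hb
  obtain ⟨v0, hv0⟩ := hv
  have hL : IsPreconnected (univ ×ˢ Iio a : Set (E × ℝ)) :=
    isPreconnected_univ.prod isPreconnected_Iio
  have hU : IsPreconnected (univ ×ˢ Ioi c : Set (E × ℝ)) :=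
    isPreconnected_univ.prod isPreconnected_Ioi
  have hline : ∀ v : E, IsPreconnected ({v} ×ˢ univ : Set (E × ℝ)) := fun v =>
    isPreconnected_singleton.prod isPreconnected_univ
  have hLs : (univ ×ˢ Iio a : Set (E × ℝ)) ⊆ (X ×ˢ Icc a b ∪ B ×ˢ Icc b c)ᶜ := by
    rintro ⟨v, t⟩ ⟨-, ht⟩ (⟨-, h⟩ | ⟨-, h⟩)
    · exact absurd h.1 (not_le.2 ht)
    · exact absurd (ha.trans h.1) (not_le.2 ht)
  have hUs : (univ ×ˢ Ioi c : Set (E × ℝ)) ⊆ (X ×ˢ Icc a b ∪ B ×ˢ Icc b c)ᶜ := by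
    rintro ⟨v, t⟩ ⟨-, ht⟩ (⟨-, h⟩ | ⟨-, h⟩)
    · exact absurd (h.2.trans hb) (not_le.2 ht)
    · exact absurd h.2 (not_le.2 ht)
  have hls : ∀ v, v ∉ B → ({v} ×ˢ univ : Set (E × ℝ)) ⊆ (X ×ˢ Icc a b ∪ B ×ˢ Icc b c)ᶜ := by
    rintro v hv ⟨v', t⟩ ⟨h1, -⟩ (⟨h, -⟩ | ⟨h, -⟩)
    · rw [mem_singleton_iff] at h1
      simp only at h1 h
      exact hv (hXB (h1 ▸ h))
    · rw [mem_singleton_iff] at h1
      simp only at h1 h
      exact hv (h1 ▸ h)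
  have hhs : ∀ v, v ∉ X → ({v} ×ˢ Iio b : Set (E × ℝ)) ⊆ (X ×ˢ Icc a b ∪ B ×ˢ Icc b c)ᶜ := by
    rintro v hv ⟨v', t⟩ ⟨h1, ht⟩ (⟨h, -⟩ | ⟨-, h⟩)
    · rw [mem_singleton_iff] at h1
      simp only at h1 h
      exact hv (h1 ▸ h)
    · exact absurd h.1 (not_le.2 ht)
  refine isPreconnected_of_forall ((v0, a - 1) : E × ℝ) ?_
  rintro ⟨v, t⟩ hy
  have hp0 : ((v0, a - 1) : E × ℝ) ∈ (univ ×ˢ Iio a : Set (E × ℝ)) := ⟨mem_univ _, by simp⟩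
  by_cases h1 : t < a
  · exact ⟨_, hLs, hp0, ⟨mem_univ _, h1⟩, hL⟩
  by_cases h2 : c < t
  · refine ⟨(univ ×ˢ Iio a ∪ {v0} ×ˢ univ) ∪ univ ×ˢ Ioi c,
      union_subset (union_subset hLs (hls v0 hv0)) hUs, Or.inl (Or.inl hp0),
      Or.inr ⟨mem_univ _, h2⟩, ?_⟩
    refine IsPreconnected.union ((v0, c + 1) : E × ℝ) (Or.inr ⟨rfl, mem_univ _⟩)
      ⟨mem_univ _, by simp⟩ ?_ hU
    exact IsPreconnected.union ((v0, a - 1) : E × ℝ) hp0 ⟨rfl, mem_univ _⟩ hL (hline v0)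
  by_cases h3 : v ∈ B
  · have h4 : v ∉ X ∧ t < b := by
      simp only [mem_compl_iff, mem_union, mem_prod, mem_Icc, not_or, not_and, not_le] at hy
      obtain ⟨hy1, hy2⟩ := hy
      have htb : t < b := by
        by_contra hcon
        exact absurd (hy2 h3 (not_lt.1 hcon)) h2
      exact ⟨fun hX => absurd (hy1 hX (not_lt.1 h1)) (not_lt.2 htb.le), htb⟩
    refine ⟨univ ×ˢ Iio a ∪ {v} ×ˢ Iio b, union_subset hLs (hhs v h4.1), Or.inl hp0,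
      Or.inr ⟨rfl, h4.2⟩, ?_⟩
    exact IsPreconnected.union ((v, a - 1) : E × ℝ) ⟨mem_univ _, by simp⟩
      ⟨rfl, by simp only [mem_Iio]; linarith⟩ hL (isPreconnected_singleton.prod isPreconnected_Iio)
  · refine ⟨univ ×ˢ Iio a ∪ {v} ×ˢ univ, union_subset hLs (hls v h3), Or.inl hp0,
      Or.inr ⟨rfl, mem_univ _⟩, ?_⟩
    exact IsPreconnected.union ((v, a - 1) : E × ℝ) ⟨mem_univ _, by simp⟩ ⟨rfl, mem_univ _⟩ hL
      (hline v)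

end Pool.Agent.R62.CB
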