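import Pool.Agent.R745.CB.Stms

/-! CB-A: the push lemma (MP_8f6e3d_gt). -/

namespace Pool.Agent.R62.CB

open Set Topology Metric Pool.Agent.R745.CB
open scoped NNReal

section

variable {V : Type} [NormedAddCommGroup V] [NormedSpace ℝ V]

/-- the bump -/
noncomputable def bump (c : V) (r : ℝ) (x : V) : ℝ := max (1 - ‖x - c‖ / r) 0

theorem bump_lip (c : V) {r : ℝ} (hr : 0 < r) (x y : V) :
    |bump c r x - bump c r y| ≤ ‖x - y‖ / r := by
  unfold bump
  refine (abs_max_sub_max_le_abs _ _ _).trans ?_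
  have h1 : (1 - ‖x - c‖ / r) - (1 - ‖y - c‖ / r) = (‖y - c‖ - ‖x - c‖) / r := by ring
  rw [h1, abs_div, abs_of_pos hr]
  gcongr
  refine (abs_norm_sub_norm_le _ _).trans ?_
  rw [norm_sub_rev x y]
  apply le_of_eq
  congr 1
  abel

theorem exists_local [CompleteSpace V] (c : V) {r : ℝ} (hr : 0 < r) (v : V) (hv : ‖v‖ < r) :
    ∃ h : V ≃ₜ V, h c = c + v ∧ ∀ x, x ∉ ball c r → h x = x := by
  let f : V → V := fun x => x + bump c r x • v
  let k : ℝ≥0 := ⟨‖v‖ / r, by positivity⟩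
  have hf : ApproximatesLinearOn f ((ContinuousLinearEquiv.refl ℝ V : V ≃L[ℝ] V) : V →L[ℝ] V)
      univ k := by
    intro x _ y _
    have e : f x - f y - ((ContinuousLinearEquiv.refl ℝ V : V ≃L[ℝ] V) : V →L[ℝ] V) (x - y)
        = (bump c r x - bump c r y) • v := by
      simp only [f, ContinuousLinearEquiv.coe_coe, ContinuousLinearEquiv.coe_refl', id_eq, sub_smul]
      abel
    rw [e, norm_smul, Real.norm_eq_abs]
    change _ ≤ ‖v‖ / r * ‖x - y‖
    calc |bump c r x - bump c r y| * ‖v‖ ≤ (‖x - y‖ / r) * ‖v‖ :=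
          mul_le_mul_of_nonneg_right (bump_lip c hr x y) (norm_nonneg _)
      _ = ‖v‖ / r * ‖x - y‖ := by ring
  have hk : Subsingleton V ∨
      k < (‖((ContinuousLinearEquiv.refl ℝ V).symm : V →L[ℝ] V)‖₊)⁻¹ := by
    rcases subsingleton_or_nontrivial V with h | h
    · exact Or.inl h
    · right
      have h1 : (‖((ContinuousLinearEquiv.refl ℝ V).symm : V →L[ℝ] V)‖₊) = 1 := by
        have : ((ContinuousLinearEquiv.refl ℝ V).symm : V →L[ℝ] V) = ContinuousLinearMap.id ℝ V :=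
          rfl
        rw [this]
        exact NNReal.eq ContinuousLinearMap.norm_id
      rw [h1, inv_one]
      change (‖v‖ / r : ℝ) < 1
      rw [div_lt_one hr]
      exact hv
  refine ⟨hf.toHomeomorph f hk, ?_, ?_⟩
  · change f c = c + v
    simp [f, bump]
  · intro x hx
    change f x = x
    have h1 : bump c r x = 0 := by
      unfold bump
      rw [mem_ball, dist_eq_norm, not_lt] at hx
      apply max_eq_right
      rw [sub_nonpos, le_div_iff₀ hr, one_mul]
      exact hx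
    simp [f, h1]

end

theorem stmPush : StmPush := by
  intro V _ _ _ U hU hUc p hp q hq
  refine hUc.induction₂ (fun x y => ∃ h : V ≃ₜ V, h x = y ∧ ∀ z, z ∉ U → h z = z)
    ?_ ?_ ?_ hp hq
  · intro x hx
    obtain ⟨r, hr, hball⟩ := Metric.isOpen_iff.1 hU x hx
    have h1 : ∀ᶠ y in 𝓝[U] x, y ∈ ball x r :=
      nhdsWithin_le_nhds (ball_mem_nhds x hr)
    filter_upwards [h1] with y hy
    obtain ⟨h, h2, h3⟩ := exists_local x hr (y - x) (by rwa [mem_ball, dist_eq_norm] at hy)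
    refine ⟨h, by rw [h2]; abel, fun z hz => h3 z (fun hzb => hz (hball hzb))⟩
  · rintro x y z - - - ⟨h, h1, h2⟩ ⟨g, g1, g2⟩
    refine ⟨h.trans g, by simp [h1, g1], fun w hw => by simp [h2 w hw, g2 w hw]⟩
  · rintro x y - - ⟨h, h1, h2⟩
    refine ⟨h.symm, by rw [← h1]; simp, fun w hw => ?_⟩
    exact h.toEquiv.symm_apply_eq.2 (h2 w hw).symm

end Pool.Agent.R62.CB
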